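import Pool.Agent.Helper267_hyp.Defs2

set_option autoImplicit false

open MeasureTheory Filter Topology Set
open scoped ENNReal ComplexConjugate FourierTransform SchwartzMap

namespace Pool.Agent.H267H

theorem K7_Ppos (d t : ℝ) (hd : 0 < d) : 0 < P d t := by
  unfold P
  have h1 : Real.cosh d - Real.sinh d = Real.exp (-d) := Real.cosh_sub_sinh d
  have h2 := Real.exp_pos (-d)
  have h3 : 0 < Real.sinh d := Real.sinh_pos_iff.2 hd
  have h4 := Real.cos_le_one t
  nlinarith

theorem K7_Pcont (d : ℝ) : Continuous (P d) := by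
  unfold P
  fun_prop

theorem K7_logcont (d : ℝ) (hd : 0 < d) : Continuous (fun t => Real.log (P d t)) :=
  (K7_Pcont d).log (fun t => (K7_Ppos d t hd).ne')

theorem K7_rpowcont (d : ℝ) (hd : 0 < d) :
    Continuous (fun t => (P d t) ^ (-(1 / 2) : ℝ)) :=
  (K7_Pcont d).rpow_const (fun t => Or.inl (K7_Ppos d t hd).ne')

theorem K7_shift (g : ℝ → ℂ) (w a : ℝ) :
    ∫ s : ℝ, Complex.exp (↑(-2 * Real.pi * s * w) * Complex.I) * g (s - a) =
      Complex.exp (↑(-2 * Real.pi * a * w) * Complex.I) *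
        ∫ s : ℝ, Complex.exp (↑(-2 * Real.pi * s * w) * Complex.I) * g s := by
  rw [← integral_const_mul]
  rw [← integral_sub_right_eq_self (fun s : ℝ =>
    Complex.exp (↑(-2 * Real.pi * a * w) * Complex.I) *
      (Complex.exp (↑(-2 * Real.pi * s * w) * Complex.I) * g s)) a]
  congr 1
  funext s
  rw [← mul_assoc, ← Complex.exp_add]
  congr 2
  push_cast
  ring

/-- the multiplier -/
theorem K7_mult (h7a : K7a) (d w : ℝ) (hd : 0 < d) :
    ((1 / (2 * Real.pi) : ℝ) : ℂ) * ∫ t in (0:ℝ)..(2 * Real.pi),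
      (((P d t) ^ (-(1 / 2) : ℝ) : ℝ) : ℂ) *
        Complex.exp (↑(-2 * Real.pi * Real.log (P d t) * w) * Complex.I) =
      ((Phi (2 * Real.pi * w) d : ℝ) : ℂ) := by
  have hc1 : Continuous (fun t : ℝ => (P d t) ^ (-(1 / 2) : ℝ) *
      Real.cos (2 * Real.pi * w * Real.log (P d t))) :=
    (K7_rpowcont d hd).mul (Real.continuous_cos.comp (continuous_const.mul (K7_logcont d hd)))
  have hc2 : Continuous (fun t : ℝ => (P d t) ^ (-(1 / 2) : ℝ) *
      Real.sin (2 * Real.pi * w * Real.log (P d t))) :=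
    (K7_rpowcont d hd).mul (Real.continuous_sin.comp (continuous_const.mul (K7_logcont d hd)))
  have h1 : ∀ t : ℝ, (((P d t) ^ (-(1 / 2) : ℝ) : ℝ) : ℂ) *
        Complex.exp (↑(-2 * Real.pi * Real.log (P d t) * w) * Complex.I) =
      (((P d t) ^ (-(1 / 2) : ℝ) * Real.cos (2 * Real.pi * w * Real.log (P d t)) : ℝ) : ℂ) +
      (((P d t) ^ (-(1 / 2) : ℝ) * Real.sin (2 * Real.pi * w * Real.log (P d t)) : ℝ) : ℂ) *
        (-Complex.I) := by
    intro t
    have e : (-2 * Real.pi * Real.log (P d t) * w : ℝ) =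
        -(2 * Real.pi * w * Real.log (P d t)) := by ring
    rw [e, Complex.exp_mul_I, ← Complex.ofReal_cos, ← Complex.ofReal_sin, Real.cos_neg,
      Real.sin_neg]
    push_cast
    ring
  simp_rw [h1]
  rw [intervalIntegral.integral_add, intervalIntegral.integral_mul_const,
    intervalIntegral.integral_ofReal, intervalIntegral.integral_ofReal, h7a _ _ hd]
  · unfold Phi
    push_cast
    ring
  · exact (Complex.continuous_ofReal.comp hc1).intervalIntegrable _ _
  · exact ((Complex.continuous_ofReal.comp hc2).mul continuous_const).intervalIntegrable _ _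

theorem K7_fourier (h7a : K7a) (d : ℝ) (hd : 0 < d) (g : ℝ → ℂ) (hg : Continuous g)
    (hgc : HasCompactSupport g) (w : ℝ) :
    ∫ s : ℝ, Complex.exp (↑(-2 * Real.pi * s * w) * Complex.I) * CC d g s =
      ((Phi (2 * Real.pi * w) d : ℝ) : ℂ) *
        ∫ s : ℝ, Complex.exp (↑(-2 * Real.pi * s * w) * Complex.I) * g s := by
  have hpi : (0:ℝ) ≤ 2 * Real.pi := by positivity
  -- the kernel
  set φ : ℝ → ℝ → ℂ := fun s t => Complex.exp (↑(-2 * Real.pi * s * w) * Complex.I) *
    ((((P d t) ^ (-(1 / 2) : ℝ) : ℝ) : ℂ) * g (s - Real.log (P d t))) with hφ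
  have hφc : Continuous (Function.uncurry φ) := by
    have h1 : Continuous (fun p : ℝ × ℝ => (P d p.2) ^ (-(1 / 2) : ℝ)) :=
      (K7_rpowcont d hd).comp continuous_snd
    have h2 : Continuous (fun p : ℝ × ℝ => g (p.1 - Real.log (P d p.2))) :=
      hg.comp (continuous_fst.sub ((K7_logcont d hd).comp continuous_snd))
    have h3 : Continuous (fun p : ℝ × ℝ =>
        Complex.exp (↑(-2 * Real.pi * p.1 * w) * Complex.I)) := by fun_prop
    exact h3.mul ((Complex.continuous_ofReal.comp h1).mul h2)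
  -- bounds
  obtain ⟨R, hR⟩ := hgc.isCompact.isBounded.subset_closedBall (0 : ℝ)
  obtain ⟨L, hL⟩ := (isCompact_Icc (a := (0:ℝ)) (b := 2 * Real.pi)).exists_bound_of_continuousOn
    (K7_logcont d hd).continuousOn
  obtain ⟨B, hB⟩ := ((isCompact_Icc (a := -(R + L)) (b := R + L)).prod
    (isCompact_Icc (a := (0:ℝ)) (b := 2 * Real.pi))).exists_bound_of_continuousOn
    hφc.continuousOn
  have hzero : ∀ s t : ℝ, t ∈ Icc (0:ℝ) (2 * Real.pi) → s ∉ Icc (-(R + L)) (R + L) →
      φ s t = 0 := by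
    intro s t ht hs
    have h1 : g (s - Real.log (P d t)) = 0 := by
      apply image_eq_zero_of_notMem_tsupport
      intro h
      have h2 := hR h
      rw [Metric.mem_closedBall, Real.dist_eq, sub_zero] at h2
      have h3 := hL t ht
      rw [Real.norm_eq_abs] at h3
      apply hs
      have h4 := abs_le.1 h2
      have h5 := abs_le.1 h3
      exact ⟨by linarith [h4.1, h5.1], by linarith [h4.2, h5.2]⟩
    show Complex.exp (↑(-2 * Real.pi * s * w) * Complex.I) *
      ((((P d t) ^ (-(1 / 2) : ℝ) : ℝ) : ℂ) * g (s - Real.log (P d t))) = 0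
    rw [h1, mul_zero, mul_zero]
  have hint : Integrable (Function.uncurry φ)
      ((volume : Measure ℝ).prod (volume.restrict (Ioc (0:ℝ) (2 * Real.pi)))) := by
    have hb : Integrable (fun p : ℝ × ℝ => ((Icc (-(R + L)) (R + L)).indicator
        (fun _ => (B : ℝ)) p.1) * (1:ℝ))
        ((volume : Measure ℝ).prod (volume.restrict (Ioc (0:ℝ) (2 * Real.pi)))) := by
      apply Integrable.mul_prod (f := (Icc (-(R + L)) (R + L)).indicator (fun _ => (B : ℝ)))
        (g := fun _ => (1:ℝ))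
      · exact (integrable_indicator_iff measurableSet_Icc).2 (integrableOn_const (by simp))
      · exact integrable_const _
    apply hb.mono' hφc.aestronglyMeasurable
    have hae : ∀ᵐ p : ℝ × ℝ ∂((volume : Measure ℝ).prod
        (volume.restrict (Ioc (0:ℝ) (2 * Real.pi)))), p.2 ∈ Ioc (0:ℝ) (2 * Real.pi) := by
      have h1 : ∀ᵐ t ∂(volume.restrict (Ioc (0:ℝ) (2 * Real.pi))),
        t ∈ Ioc (0:ℝ) (2 * Real.pi) := ae_restrict_mem measurableSet_Ioc
      exact (Measure.quasiMeasurePreserving_snd).ae h1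
    filter_upwards [hae] with p hp
    by_cases hs : p.1 ∈ Icc (-(R + L)) (R + L)
    · rw [indicator_of_mem hs, mul_one]
      exact hB p ⟨hs, ⟨hp.1.le, hp.2⟩⟩
    · rw [indicator_of_notMem hs, zero_mul]
      have : Function.uncurry φ p = 0 := hzero p.1 p.2 ⟨hp.1.le, hp.2⟩ hs
      rw [this, norm_zero]
  have hswap := integral_integral_swap hint
  have h1 : ∀ s : ℝ, Complex.exp (↑(-2 * Real.pi * s * w) * Complex.I) * CC d g s =
      ((1 / (2 * Real.pi) : ℝ) : ℂ) * ∫ t in Ioc (0:ℝ) (2 * Real.pi), φ s t := by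
    intro s
    unfold CC
    rw [intervalIntegral.integral_of_le hpi, hφ]
    simp only
    rw [integral_const_mul]
    ring
  simp_rw [h1]
  rw [integral_const_mul, hswap]
  have h2 : ∀ t : ℝ, ∫ s : ℝ, φ s t = ((((P d t) ^ (-(1 / 2) : ℝ) : ℝ) : ℂ) *
      Complex.exp (↑(-2 * Real.pi * Real.log (P d t) * w) * Complex.I)) *
      ∫ s : ℝ, Complex.exp (↑(-2 * Real.pi * s * w) * Complex.I) * g s := by
    intro t
    rw [mul_assoc, ← K7_shift, ← integral_const_mul]
    congr 1
    funext s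
    rw [hφ]
    ring
  simp_rw [h2]
  rw [integral_mul_const, ← mul_assoc, ← intervalIntegral.integral_of_le hpi,
    K7_mult h7a d w hd]

theorem k7_of (h7a : K7a) (h10 : K10) : K7 := by
  intro d c σ hd hσ hb g hg hgc
  obtain ⟨hC1, hC2, _⟩ := h10.2 d hd g hg hgc
  set f : ℝ → ℂ := fun s => CC d g s - (c : ℂ) * g s with hf
  have hfs : ContDiff ℝ (⊤ : ℕ∞) f := hC1.sub (contDiff_const.mul hg)
  have hfc : HasCompactSupport f := by
    apply HasCompactSupport.sub hC2
    exact hgc.mul_left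
  let F : 𝓢(ℝ, ℂ) := hfc.toSchwartzMap hfs
  let G : 𝓢(ℝ, ℂ) := hgc.toSchwartzMap hg
  have hFf : ∀ s, F s = f s := fun s => rfl
  have hGg : ∀ s, G s = g s := fun s => rfl
  have hFG : ∀ w : ℝ, 𝓕 F w = ((Phi (2 * Real.pi * w) d - c : ℝ) : ℂ) * 𝓕 G w := by
    intro w
    rw [SchwartzMap.fourier_coe, SchwartzMap.fourier_coe, Real.fourier_real_eq_integral_exp_smul,
      Real.fourier_real_eq_integral_exp_smul]
    simp only [smul_eq_mul, hFf, hGg]
    have hi1 : Integrable (fun v : ℝ => Complex.exp (↑(-2 * Real.pi * v * w) * Complex.I) *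
        CC d g v) := by
      apply Continuous.integrable_of_hasCompactSupport
      · exact (by fun_prop : Continuous (fun v : ℝ =>
          Complex.exp (↑(-2 * Real.pi * v * w) * Complex.I))).mul hC1.continuous
      · exact hC2.mul_left
    have hi2 : Integrable (fun v : ℝ => (c : ℂ) *
        (Complex.exp (↑(-2 * Real.pi * v * w) * Complex.I) * g v)) := by
      apply Integrable.const_mul
      apply Continuous.integrable_of_hasCompactSupport
      · exact (by fun_prop : Continuous (fun v : ℝ =>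
          Complex.exp (↑(-2 * Real.pi * v * w) * Complex.I))).mul hg.continuous
      · exact hgc.mul_left
    have e : ∀ v : ℝ, Complex.exp (↑(-2 * Real.pi * v * w) * Complex.I) * f v =
        Complex.exp (↑(-2 * Real.pi * v * w) * Complex.I) * CC d g v -
        (c : ℂ) * (Complex.exp (↑(-2 * Real.pi * v * w) * Complex.I) * g v) := by
      intro v
      rw [hf]
      ring
    simp_rw [e]
    rw [integral_sub hi1 hi2, K7_fourier h7a d hd g hg.continuous hgc w, integral_const_mul]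
    push_cast
    ring
  have hPF := SchwartzMap.integral_norm_sq_fourier F
  have hPG := SchwartzMap.integral_norm_sq_fourier G
  have hsq : ∀ H : 𝓢(ℝ, ℂ), Integrable (fun s : ℝ => ‖H s‖ ^ 2) := by
    intro H
    exact (H.memLp 2).integrable_norm_pow (by norm_num)
  have hle : ∫ s, ‖F s‖ ^ 2 ≤ σ ^ 2 * ∫ s, ‖G s‖ ^ 2 := by
    rw [← hPF, ← hPG, ← integral_const_mul]
    apply integral_mono (hsq _) ((hsq _).const_mul _)
    intro w
    show ‖𝓕 F w‖ ^ 2 ≤ σ ^ 2 * ‖𝓕 G w‖ ^ 2
    rw [hFG w, norm_mul, mul_pow, Complex.norm_real, Real.norm_eq_abs]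
    have := hb (2 * Real.pi * w)
    have h0 := abs_nonneg (Phi (2 * Real.pi * w) d - c)
    gcongr
  have hlin : ∀ H : 𝓢(ℝ, ℂ), ∫⁻ s : ℝ, ‖H s‖ₑ ^ 2 = ENNReal.ofReal (∫ s, ‖H s‖ ^ 2) := by
    intro H
    rw [ofReal_integral_eq_lintegral_ofReal (hsq H) (ae_of_all _ fun s => by positivity)]
    congr 1
    funext s
    rw [ENNReal.ofReal_pow (norm_nonneg _), ofReal_norm]
  have h1 := hlin F
  have h2 := hlin G
  calc ∫⁻ s : ℝ, ‖CC d g s - (c : ℂ) * g s‖ₑ ^ 2 = ∫⁻ s : ℝ, ‖F s‖ₑ ^ 2 := rfl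
    _ = ENNReal.ofReal (∫ s, ‖F s‖ ^ 2) := h1
    _ ≤ ENNReal.ofReal (σ ^ 2 * ∫ s, ‖G s‖ ^ 2) := ENNReal.ofReal_le_ofReal hle
    _ = ENNReal.ofReal (σ ^ 2) * ENNReal.ofReal (∫ s, ‖G s‖ ^ 2) :=
        ENNReal.ofReal_mul (by positivity)
    _ = ENNReal.ofReal (σ ^ 2) * ∫⁻ s : ℝ, ‖g s‖ₑ ^ 2 := by rw [← h2]; rfl

end Pool.Agent.H267H
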